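import Pool.Agent.Lib.MP_43d240_ag.TameCore

/-!
# Reduction of the period-index problem along abelian fibrations

As in `AbelianOverCurve`, but the subfield `M` is arbitrary, arbitrary `n`-torsion classes coming
from `M` are allowed, and the relations of the blocks need only hold modulo such classes.
-/

set_option autoImplicit false

universe u

namespace Pool.Agent.Results.MP_43d240_ag.AbelianReduction

open Pool.Agent.Lib.MP_43d240_ag

theorem result {k K : Type u} [Field k] [IsAlgClosed k] [Field K] [Algebra k K]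
    (M : IntermediateField k K) (n : ℕ) (hn : n ≠ 0) (ζ : k) (hζ : IsPrimitiveRoot ζ n)
    (s : ℕ) (g : Fin s → ℕ) (hg : ∀ j, ∀ p : ℕ, p.Prime → p ∣ n → g j < p)
    (f : ∀ j, Fin (2 * g j) → Kˣ)
    (hf : ∀ j,
      (∃ L : IntermediateField k K, Algebra.trdeg k L ≤ 1 ∧ ∀ a, (f j a : K) ∈ L) ∨
      (∃ t : Matrix (Fin (2 * g j)) (Fin (2 * g j)) ℤ,
        IsCoprime (t - t.transpose).det (n : ℤ) ∧ ∃ ε : BrM M, ε ^ n = 1 ∧
        ∏ a, ∏ b, cls K (Symb n (algebraMap k K ζ) ((f j a ^ t a b : Kˣ) : K) (f j b : K)) =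
          bc M K ε))
    (α : BrM K)
    (hα : α ∈ Submonoid.closure
      ({c | ∃ u v : Kˣ, u ∈ slots M f ∧ v ∈ slots M f ∧
        c = cls K (Symb n (algebraMap k K ζ) (u : K) (v : K))} ∪
        {c | ∃ ε : BrM M, ε ^ n = 1 ∧ c = bc M K ε})) :
    (∃ (l : List (Kˣ × Kˣ)) (δ : BrM M), l.length = ∑ j, g j ∧ δ ^ n = 1 ∧
      α = (l.map fun p => cls K (Symb n (algebraMap k K ζ) (p.1 : K) (p.2 : K))).prod *
        bc M K δ) ∧
    ∀ e : ℕ,
      (∀ (D' : Type u) [DivisionRing D'] [Algebra M D'] [FiniteDimensional M D'],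
        cls M D' ^ n = 1 → Nat.sqrt (Module.finrank M D') ∣ n ^ e) →
      ∀ (D : Type u) [DivisionRing D] [Algebra K D] [FiniteDimensional K D],
        cls K D = α → Nat.sqrt (Module.finrank K D) ∣ n ^ ((∑ j, g j) + e) := by
  have hζK : IsPrimitiveRoot (algebraMap k K ζ) n :=
    hζ.map_of_injective (algebraMap k K).injective
  have hf' : ∀ j, BlockRel M n ζ (f j) := by
    intro j
    rcases hf j with ⟨L, hL, hfL⟩ | h
    · exact blockRel_of_trdeg hn hζ M L hL (f j) hfL
    · exact h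
  obtain ⟨l, δ, hl, hδ, hdec⟩ := general_decomposition hn hζ M g hg f hf' hα
  refine ⟨⟨l, δ, hl, hδ, hdec⟩, ?_⟩
  intro e he D _ _ _ hD
  have hu : IsUnit δ := IsUnit.of_pow_eq_one hδ hn
  obtain ⟨D', _, _, _, hD'⟩ := exists_division_of_isUnit hu
  have h1 := index_dvd_of_decomposition hn hζK l D D' (hD' ▸ hu) (by rw [hD, hdec, hD'])
  have h2 := he D' (by rw [hD', hδ])
  rw [hl] at h1
  rw [pow_add]
  exact h1.trans (Nat.mul_dvd_mul_left _ h2)

end Pool.Agent.Results.MP_43d240_ag.AbelianReduction
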