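import Pool.Agent.Lib.MP_43d240_ag.PI.Transport

/-!
# MP_43d240_ag: a division algebra of degree 8 and period 2 over k(x,y,z)

Field level form of the disproof of Q1 (project PI of the team; proof on paper:
`Pool/Agent/Lib/MP_43d240_ag/H84/Paper.md`).
-/

set_option autoImplicit false

open scoped TensorProduct

namespace Pool.Agent.Results.MP_43d240_ag.DegreeEightPeriodTwo

/-- For every algebraically closed field `k` of characteristic zero the tensor product of the three
quaternion algebras `(z, b)`, `(x + z, z - 1)`, `(y, z - 2)` over the rational function field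
`k(x, y, z)` (of transcendence degree 3) is a central division algebra of dimension 64, and its
tensor square is split: index 8, period 2. -/
theorem result :
    ∀ (k : Type) [Field k] [IsAlgClosed k] [CharZero k]
      (x y z b : FractionRing (MvPolynomial (Fin 3) k)),
      x = algebraMap (MvPolynomial (Fin 3) k) (FractionRing (MvPolynomial (Fin 3) k))
        (MvPolynomial.X 0) →
      y = algebraMap (MvPolynomial (Fin 3) k) (FractionRing (MvPolynomial (Fin 3) k))
        (MvPolynomial.X 1) →
      z = algebraMap (MvPolynomial (Fin 3) k) (FractionRing (MvPolynomial (Fin 3) k))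
        (MvPolynomial.X 2) →
      b = 4 * y ^ 5 * (x - 2 * y) - 4 * y ^ 3 * (x - 2 * y) ^ 3 + y ^ 4
        + 30 * y ^ 2 * (x - 2 * y) ^ 2 - 27 * (x - 2 * y) ^ 4 + 24 * y * (x - 2 * y) + 4 →
      Algebra.trdeg k (FractionRing (MvPolynomial (Fin 3) k)) = 3 ∧
      ∃ (D : Type) (_ : DivisionRing D) (_ : Algebra (FractionRing (MvPolynomial (Fin 3) k)) D),
        Nonempty (D ≃ₐ[FractionRing (MvPolynomial (Fin 3) k)]
          (QuaternionAlgebra (FractionRing (MvPolynomial (Fin 3) k)) z 0 b
            ⊗[FractionRing (MvPolynomial (Fin 3) k)]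
          (QuaternionAlgebra (FractionRing (MvPolynomial (Fin 3) k)) (x + z) 0 (z - 1)
            ⊗[FractionRing (MvPolynomial (Fin 3) k)]
          QuaternionAlgebra (FractionRing (MvPolynomial (Fin 3) k)) y 0 (z - 2)))) ∧
        Algebra.IsCentral (FractionRing (MvPolynomial (Fin 3) k)) D ∧
        Module.finrank (FractionRing (MvPolynomial (Fin 3) k)) D = 64 ∧
        Nonempty (D ⊗[FractionRing (MvPolynomial (Fin 3) k)] D
          ≃ₐ[FractionRing (MvPolynomial (Fin 3) k)]
          Matrix (Fin 64) (Fin 64) (FractionRing (MvPolynomial (Fin 3) k))) := by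
  intro k _ _ _ x y z b hx hy hz hb
  refine ⟨Pool.Agent.PI.trdeg_frac k, ?_⟩
  have hc : CharZero (FractionRing (MvPolynomial (Fin 3) k)) :=
    charZero_of_injective_algebraMap
      (algebraMap k (FractionRing (MvPolynomial (Fin 3) k))).injective
  obtain ⟨h1, h2, h3⟩ := Pool.Agent.PI.nozd_gen k (FractionRing (MvPolynomial (Fin 3) k))
    (Pool.Agent.PI.eK k : FractionRing (MvPolynomial (Fin 3) k) →+* Pool.Agent.PI.KK k) x y z b
    (by rw [hx]; exact (Pool.Agent.PI.eK_algebraMap k _).trans
          (congrArg _ (Pool.Agent.PI.e3_X0 k)))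
    (by rw [hy]; exact (Pool.Agent.PI.eK_algebraMap k _).trans
          (congrArg _ (Pool.Agent.PI.e3_X1 k)))
    (by rw [hz]; exact (Pool.Agent.PI.eK_algebraMap k _).trans
          (congrArg _ (Pool.Agent.PI.e3_X2 k))) hb
  exact Pool.Agent.PI.division_of_nozd (FractionRing (MvPolynomial (Fin 3) k))
    ![z, x + z, y] ![b, z - 1, z - 2] h1 h2 h3

end Pool.Agent.Results.MP_43d240_ag.DegreeEightPeriodTwo
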