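import Pool.Agent.Lib.MP_43d240_ag.EllipticMain

/-!
# Classes of period two on (fibre products of) elliptic curves over a base field

`M` is a field of characteristic different from two and `K / M` is a field extension containing
points `(x i, y i)` of cubic curves `y ^ 2 = x ^ 3 + a₂ x ^ 2 + a₁ x + a₀` over `M`, for instance
the function field of the fibre product of `r` elliptic curves over `M`.  No torsion point of the
curves has to be rational over `M`.  The classes considered are those generated by the point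
classes `(x i - t, e)`, where `e (t ^ 3 + a₂ t ^ 2 + a₁ t + a₀)` is a square in `M`, and by the
quaternion classes of `M`.
-/

set_option autoImplicit false

universe u

namespace Pool.Agent.Results.MP_43d240_ag.EllipticFibrations

open Pool.Agent.Lib.MP_43d240_ag

theorem result {M K : Type u} [Field M] [Field K] [Algebra M K] (h2 : (2 : M) ≠ 0)
    (r : ℕ) (a₂ a₁ a₀ : Fin r → M) (x y : Fin r → K)
    (hx : ∀ i, ∀ t : M, x i ≠ algebraMap M K t) (hy : ∀ i, y i ≠ 0)
    (hxy : ∀ i, y i ^ 2 = x i ^ 3 + algebraMap M K (a₂ i) * x i ^ 2 +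
      algebraMap M K (a₁ i) * x i + algebraMap M K (a₀ i))
    (α : BrM K)
    (hα : α ∈ Submonoid.closure ((⋃ i, pointClasses M (a₂ i) (a₁ i) (a₀ i) (x i)) ∪
      bc M K '' quatClasses M)) :
    (∃ (l : List (Kˣ × Kˣ)) (δ : BrM M), l.length = r ∧ δ ∈ Submonoid.closure (quatClasses M) ∧
      α = (l.map fun p => cls K (Symb 2 (-1 : K) (p.1 : K) (p.2 : K))).prod * bc M K δ) ∧
    (∀ e : ℕ,
      (∀ (D' : Type u) [DivisionRing D'] [Algebra M D'] [FiniteDimensional M D'],
        cls M D' ∈ Submonoid.closure (quatClasses M) →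
          Nat.sqrt (Module.finrank M D') ∣ 2 ^ e) →
      ∀ (D : Type u) [DivisionRing D] [Algebra K D] [FiniteDimensional K D],
        cls K D = α → Nat.sqrt (Module.finrank K D) ∣ 2 ^ (r + e)) ∧
    (∀ (k : Type u) [Field k] [IsAlgClosed k] [Algebra k M], Algebra.trdeg k M ≤ 2 →
      (∃ l : List (Kˣ × Kˣ), l.length = r + 1 ∧
        α = (l.map fun p => cls K (Symb 2 (-1 : K) (p.1 : K) (p.2 : K))).prod) ∧
      ∀ (D : Type u) [DivisionRing D] [Algebra K D] [FiniteDimensional K D],
        cls K D = α → Nat.sqrt (Module.finrank K D) ∣ 2 ^ (r + 1)) := by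
  have hζM : IsPrimitiveRoot (-1 : M) 2 := by
    obtain ⟨p, hp⟩ := CharP.exists M
    refine IsPrimitiveRoot.neg_one p ?_
    rintro rfl
    exact h2 (by exact_mod_cast CharP.cast_eq_zero M 2)
  have hζ : IsPrimitiveRoot (-1 : K) 2 := by
    have h := hζM.map_of_injective (algebraMap M K).injective
    simpa using h
  obtain ⟨l, δ, hl, hδ, hu, hdec⟩ := elliptic_decomposition hζ hζM a₂ a₁ a₀ x y hx hy hxy hα
  refine ⟨⟨l, δ, hl, hδ, hdec⟩, ?_, ?_⟩
  · intro e he D _ _ _ hD
    obtain ⟨D', _, _, _, hD'⟩ := exists_division_of_isUnit hu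
    have h1 := index_dvd_of_decomposition two_ne_zero hζ l D D' (hD' ▸ hu) (by rw [hD, hdec, hD'])
    have h2 := he D' (by rw [hD']; exact hδ)
    rw [hl] at h1
    rw [pow_add]
    exact h1.trans (Nat.mul_dvd_mul_left _ h2)
  · intro k _ _ _ hM
    obtain ⟨u, v, rfl⟩ := single_of_trdeg hM hζM hδ
    have h3 : α = ((l ++ [(um M K u, um M K v)]).map
        fun p => cls K (Symb 2 (-1 : K) (p.1 : K) (p.2 : K))).prod := by
      have h := bc_symb M K hζM two_ne_zero u.ne_zero v.ne_zero
      have h1 : algebraMap M K (-1) = -1 := by simp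
      rw [h1] at h
      rw [hdec, h, List.map_append, List.prod_append, List.map_singleton, List.prod_singleton]
      rfl
    refine ⟨⟨_, by simp [hl], h3⟩, ?_⟩
    intro D _ _ _ hD
    have h4 := index_dvd_of_prod two_ne_zero hζ _ D (hD.trans h3)
    simpa [hl] using h4

end Pool.Agent.Results.MP_43d240_ag.EllipticFibrations
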