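import Pool.Agent.Lib.MP_43d240_ag.H44.Assembly
import Pool.Agent.Lib.MP_43d240_ag.H15.End
import Pool.Agent.Lib.MP_43d240_ag.PI.All
import Pool.Agent.Lib.MP_43d240_ag.PI.Transport
import Pool.Agent.Lib.MP_43d240_ag.FZ.All
import Pool.Agent.Lib.MP_43d240_ag.H45.GenAt
import Pool.Agent.Lib.MP_43d240_ag.H45.Emb

/-!
# MP_43d240_ag: unramified classes of period 2 and index 8 on smooth projective threefolds

Over every uncountable algebraically closed field of characteristic zero. The threefold is a
`(Z/2)^18`-cover of `P^3` branched along 24 sextic surfaces in general position (project PI of the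
team; paper proof: `Pool/Agent/Lib/MP_43d240_ag/H84/Paper.md`).
-/

set_option autoImplicit false

open AlgebraicGeometry CategoryTheory
open scoped TensorProduct

namespace Pool.Agent.Results.MP_43d240_ag.UnramifiedThreefold

open Pool.Agent.PI Pool.Agent.Lib.MP_43d240_ag

/-- Over every uncountable algebraically closed field `k` of characteristic zero (for example `ℂ`)
there is a smooth projective threefold `X` and a central division algebra `D` over its function
field with `dim D = 64` (index `8`), with `D ⊗ D` split (period `2`), and which at every point `x`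
of `X` comes from an Azumaya algebra over the local ring of `X` at `x` (unramified). So the index
does not divide the square of the period. -/
theorem result :
    ∀ (k : Type) [Field k] [IsAlgClosed k] [CharZero k] [Uncountable k],
      ∃ (X : Scheme.{0}) (_ : IsIntegral X) (f : X ⟶ Spec (CommRingCat.of k)),
        Smooth f ∧ IsProper f ∧ H45.IsProjectiveOver k X f ∧ topologicalKrullDim X = 3 ∧
        ∃ (D : Type) (_ : DivisionRing D) (_ : Algebra X.functionField D),
          Algebra.IsCentral X.functionField D ∧
          Module.finrank X.functionField D = 64 ∧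
          Nonempty (D ⊗[X.functionField] D ≃ₐ[X.functionField]
            Matrix (Fin 64) (Fin 64) X.functionField) ∧
          ∀ x : X, ∃ (A : Type) (_ : Ring A) (_ : Algebra (X.presheaf.stalk x) A),
            IsAzumaya (X.presheaf.stalk x) A ∧
            Nonempty (X.functionField ⊗[X.presheaf.stalk x] A ≃ₐ[X.functionField] D) := by
  intro k _ _ _ _
  obtain ⟨V, hVac, hV0, F, hhom, hGP, hF⟩ := H45.genAt k
  obtain ⟨X, hX, p, ⟨hmodel, hproj⟩, ψ, r, hψ, hr, hgen, hsq⟩ := H45.geo'
    Pool.Agent.PI.FZ.modelStatement k (fun i => MvPolynomial.map V.subtype (F i))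
    (fun i => (hhom i).map V.subtype) hGP
  have hnz := H44.spec H44.nzdTransfer Pool.Agent.PI.fieldStatement V F hF ψ hψ r hr hgen
  have hne : ∀ i : Idx, ψ (deh (MvPolynomial.map V.subtype (F i))) ≠ 0 := by
    intro i h0
    have h1 : deh (MvPolynomial.map V.subtype (F i)) = 0 := hψ (by rw [h0, map_zero])
    rw [H44.deh_map] at h1
    have h2 : deh (F i) = 0 :=
      MvPolynomial.map_injective _ Subtype.val_injective (by rw [h1, map_zero])
    have h3 := H44.tv_ne_zero (IsLocalRing.ResidueField V) i.1
    apply h3
    rw [← H44.th_deh, ← hF i, H44.deh_map, h2, map_zero, map_zero]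
  have h2s : ∀ x : X, IsUnit (2 : X.presheaf.stalk x) := by
    intro x
    obtain ⟨g⟩ := exists_ringHom_stalk p x
    have h := (two_ne_zero (α := k)).isUnit.map g
    rwa [map_ofNat] at h
  have hc0 : CharZero X.functionField := by
    obtain ⟨x⟩ : Nonempty X := inferInstance
    obtain ⟨g⟩ := exists_ringHom_stalk p x
    exact charZero_of_injective_ringHom
      (f := (algebraMap (X.presheaf.stalk x) X.functionField).comp g) (RingHom.injective _)
  obtain ⟨D, iD, jD, ⟨e⟩, hcen, hfin, hsplit⟩ := division_of_nozd X.functionField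
    (fun j => ψ (deh (MvPolynomial.map V.subtype (F (![0, 2, 4] j, 0)))))
    (fun j => ψ (deh (MvPolynomial.map V.subtype (F (![1, 3, 5] j, 0)))))
    (fun j => hne _) (fun j => hne _) hnz
  refine ⟨X, hX, p, hmodel.smooth, hmodel.proper, hproj, hmodel.dim, D, iD, jD, hcen, hfin,
    hsplit, fun x => ?_⟩
  obtain ⟨A, iA, jA, fA, gA, nA, sA, ⟨eA⟩⟩ := azAt_Q3 (X.presheaf.stalk x) X.functionField (h2s x)
    (fun j => ψ (deh (MvPolynomial.map V.subtype (F (![0, 2, 4] j, 0)))))
    (fun j => ψ (deh (MvPolynomial.map V.subtype (F (![1, 3, 5] j, 0)))))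
    (fun j => hsq _ x) (fun j => hsq _ x)
  exact ⟨A, iA, jA, PIEnd.azumaya_of_surj sA, ⟨eA.trans e.symm⟩⟩

end Pool.Agent.Results.MP_43d240_ag.UnramifiedThreefold
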